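import Pool.Agent.Helper879.ECD.Final

set_option autoImplicit false

/-! Bridges, cuts of size one and even circuit decompositions of line graphs of cubic graphs. -/

namespace Pool.Agent.Y296.ECD

open Finset Pool.Agent.Helper879.ECD

/-- The edge `e` is a bridge: its ends are not joined by a walk avoiding `e`. -/
def IsBridge {V E : Type} (G : MGraph V E) (e : E) : Prop :=
  ∀ x y, G.ends e = s(x, y) →
    ¬ Relation.ReflTransGen (fun a b => ∃ f, f ≠ e ∧ G.ends f = s(a, b)) x y

section

variable {V E : Type} [Fintype V] [Fintype E] [DecidableEq V] [DecidableEq E]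
  {G : MGraph V E} {a b : E → V}

lemma ends_ne (hends : ∀ e, G.ends e = s(a e, b e)) (e : E) : a e ≠ b e := by
  intro h
  apply G.loopless e
  rw [hends, h]; exact Sym2.mk_isDiag_iff.2 rfl

lemma mem_ends_iff (hends : ∀ e, G.ends e = s(a e, b e)) (e : E) (v : V) :
    v ∈ G.ends e ↔ v = a e ∨ v = b e := by
  rw [hends, Sym2.mem_iff]

lemma same_side (hends : ∀ e, G.ends e = s(a e, b e)) {X : Finset V} {e : E} {x y : V}
    (he : G.ends e = s(x, y)) (h : a e ∈ X ↔ b e ∈ X) : x ∈ X ↔ y ∈ X := by
  have h4 := hends e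
  rw [he] at h4
  rcases Sym2.eq_iff.1 h4 with ⟨h5, h6⟩ | ⟨h5, h6⟩
  · rw [h5, h6]; exact h
  · rw [h5, h6]; exact h.symm

lemma cn_single_of_cubic (hends : ∀ e, G.ends e = s(a e, b e)) (hcub : G.IsCubic) (w : V) :
    cn a b univ {w} = 3 := by
  rw [← hcub w]
  unfold cn
  rw [← Set.ncard_coe_finset]
  congr 1
  ext e
  simp only [Finset.coe_filter, Finset.mem_univ, true_and, Set.mem_setOf_eq,
    Finset.mem_singleton, mem_ends_iff hends]
  have := ends_ne hends e
  constructor
  · intro h
    by_contra hcon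
    push Not at hcon
    exact h ⟨fun h' => absurd h'.symm hcon.1, fun h' => absurd h'.symm hcon.2⟩
  · rintro (rfl | rfl) h
    · exact this (h.1 rfl).symm
    · exact this (h.2 rfl)

/-- A cut of size one has a unique crossing edge. -/
lemma exists_cross (hends : ∀ e, G.ends e = s(a e, b e)) {X : Finset V}
    (hX : cn a b univ X = 1) :
    ∃ e0 u v, G.ends e0 = s(u, v) ∧ u ∈ X ∧ v ∉ X ∧ ∀ e, e ≠ e0 → (a e ∈ X ↔ b e ∈ X) := by
  unfold cn at hX
  obtain ⟨e0, he0⟩ := Finset.card_eq_one.1 hX
  have hcut : ∀ e, ¬ (a e ∈ X ↔ b e ∈ X) → e = e0 := by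
    intro e he
    have : e ∈ univ.filter (fun e => ¬ (a e ∈ X ↔ b e ∈ X)) :=
      Finset.mem_filter.2 ⟨Finset.mem_univ _, he⟩
    rw [he0, Finset.mem_singleton] at this; exact this
  have he0' : ¬ (a e0 ∈ X ↔ b e0 ∈ X) := by
    have : e0 ∈ univ.filter (fun e => ¬ (a e ∈ X ↔ b e ∈ X)) := by
      rw [he0]; exact Finset.mem_singleton_self _
    exact (Finset.mem_filter.1 this).2
  have hcut' : ∀ e, e ≠ e0 → (a e ∈ X ↔ b e ∈ X) := by
    intro e he
    by_contra h
    exact he (hcut e h)
  by_cases h : a e0 ∈ X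
  · exact ⟨e0, _, _, hends e0, h, fun h' => he0' ⟨fun _ => h', fun _ => h⟩, hcut'⟩
  · refine ⟨e0, b e0, a e0, by rw [hends e0, Sym2.eq_swap], ?_, h, hcut'⟩
    by_contra h'
    exact he0' ⟨fun h'' => absurd h'' h, fun h'' => absurd h'' h'⟩

/-- No bridge if and only if no cut of size one. -/
lemma no_bridge_iff (hends : ∀ e, G.ends e = s(a e, b e)) :
    (∀ e, ¬ IsBridge G e) ↔ ∀ X : Finset V, cn a b univ X ≠ 1 := by
  constructor
  · intro h X hX
    obtain ⟨e0, u, v, huv, hu, hv, hside⟩ := exists_cross hends hX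
    apply h e0
    intro x y hxy hwalk
    have key : ∀ t, Relation.ReflTransGen
        (fun a b => ∃ f, f ≠ e0 ∧ G.ends f = s(a, b)) x t → (x ∈ X ↔ t ∈ X) := by
      intro t ht
      induction ht with
      | refl => exact Iff.rfl
      | @tail c d _ hcd ih =>
        obtain ⟨f, hf, hfe⟩ := hcd
        exact ih.trans (same_side hends hfe (hside f hf))
    have h1 := key y hwalk
    rw [huv] at hxy
    rcases Sym2.eq_iff.1 hxy with ⟨h5, h6⟩ | ⟨h5, h6⟩
    · rw [← h5, ← h6] at h1; exact hv (h1.1 hu)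
    · rw [← h5, ← h6] at h1; exact hv (h1.2 hu)
  · intro h e he
    classical
    let X : Finset V := univ.filter (fun t => Relation.ReflTransGen
        (fun a b => ∃ f, f ≠ e ∧ G.ends f = s(a, b)) (a e) t)
    have hXdef : ∀ t, t ∈ X ↔ Relation.ReflTransGen
        (fun a b => ∃ f, f ≠ e ∧ G.ends f = s(a, b)) (a e) t := by
      intro t; simp [X]
    apply h X
    unfold cn
    rw [Finset.card_eq_one]
    refine ⟨e, ?_⟩
    ext f
    simp only [Finset.mem_filter, Finset.mem_univ, true_and, Finset.mem_singleton]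
    constructor
    · intro hf
      by_contra hfe
      apply hf
      rw [hXdef, hXdef]
      constructor
      · intro h1
        exact h1.tail ⟨f, hfe, hends f⟩
      · intro h1
        exact h1.tail ⟨f, hfe, by rw [hends f, Sym2.eq_swap]⟩
    · rintro rfl h1
      have h2 : b f ∈ X := h1.1 ((hXdef _).2 Relation.ReflTransGen.refl)
      exact he _ _ (hends f) ((hXdef _).1 h2)

/-- A connected cubic graph without cuts of size one is 2-connected. -/
lemma twoConnected_of_cuts (hends : ∀ e, G.ends e = s(a e, b e)) (hcub : G.IsCubic)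
    (hconn : ∀ x y, Relation.ReflTransGen (fun a b => ∃ e, G.ends e = s(a, b)) x y)
    (hb : ∀ X : Finset V, cn a b univ X ≠ 1) : G.TwoConnected := by
  classical
  refine ⟨hconn, ?_⟩
  intro w x y hx hy
  by_contra hcon
  let X : Finset V := univ.filter (fun t => Relation.ReflTransGen
      (fun a b => a ≠ w ∧ b ≠ w ∧ ∃ e, G.ends e = s(a, b)) x t)
  have hXdef : ∀ t, t ∈ X ↔ Relation.ReflTransGen
      (fun a b => a ≠ w ∧ b ≠ w ∧ ∃ e, G.ends e = s(a, b)) x t := by
    intro t; simp [X]
  have hwX : w ∉ X := by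
    rw [hXdef]
    intro h
    rcases Relation.ReflTransGen.cases_tail h with h1 | ⟨c, _, h2⟩
    · exact hx h1.symm
    · exact h2.2.1 rfl
  have hxX : x ∈ X := (hXdef x).2 Relation.ReflTransGen.refl
  have hyX : y ∉ X := fun h => hcon ((hXdef y).1 h)
  let Y : Finset V := (insert w X)ᶜ
  have hYdef : ∀ t, t ∈ Y ↔ t ≠ w ∧ t ∉ X := by
    intro t; simp [Y]
  have hyY : y ∈ Y := (hYdef y).2 ⟨hy, hyX⟩
  -- an edge with no end `w` does not leave `X`
  have hstep : ∀ e, a e ≠ w → b e ≠ w → (a e ∈ X ↔ b e ∈ X) := by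
    intro e h1 h2
    rw [hXdef, hXdef]
    constructor
    · intro h3
      exact h3.tail ⟨h1, h2, e, hends e⟩
    · intro h3
      exact h3.tail ⟨h2, h1, e, by rw [hends e, Sym2.eq_swap]⟩
  have hsum : cn a b univ X + cn a b univ Y = cn a b univ {w} := by
    simp only [cn, Finset.card_filter, ← Finset.sum_add_distrib]
    apply Finset.sum_congr rfl
    intro e _
    have hne := ends_ne hends e
    simp only [hYdef, Finset.mem_singleton]
    by_cases h1 : a e = w
    · have h2 : b e ≠ w := fun h => hne (h1.trans h.symm)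
      have h3 : a e ∉ X := by rw [h1]; exact hwX
      by_cases h4 : b e ∈ X <;> simp [h1, h2, h4, hwX]
    · by_cases h2 : b e = w
      · by_cases h4 : a e ∈ X <;> simp [h1, h2, h4, hwX]
      · have h3 := hstep e h1 h2
        by_cases h4 : a e ∈ X
        · have h5 := h3.1 h4
          simp [h1, h2, h4, h5]
        · have h5 : b e ∉ X := fun h => h4 (h3.2 h)
          simp [h1, h2, h4, h5]
  rw [cn_single_of_cubic hends hcub w] at hsum
  -- a nonempty proper set has a crossing edge
  have hpos : ∀ Z : Finset V, ∀ s t, s ∈ Z → t ∉ Z → cn a b univ Z ≠ 0 := by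
    intro Z s t hs ht h0
    unfold cn at h0
    rw [Finset.card_eq_zero, Finset.filter_eq_empty_iff] at h0
    have key : ∀ r, Relation.ReflTransGen (fun a b => ∃ e, G.ends e = s(a, b)) s r → r ∈ Z := by
      intro r hr
      induction hr with
      | refl => exact hs
      | @tail c d _ hcd ih =>
        obtain ⟨f, hf⟩ := hcd
        have h1 := h0 (Finset.mem_univ f)
        exact (same_side hends hf (not_not.1 h1)).1 ih
    exact ht (key t (hconn s t))
  have h1 := hb X
  have h2 := hb Y
  have h3 := hpos X x w hxX hwX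
  have h4 := hpos Y y w hyY (fun h => ((hYdef w).1 h).1 rfl)
  omega

end

end Pool.Agent.Y296.ECD
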