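import Pool.Agent.Y296.ECD.Bridge

set_option autoImplicit false

/-! If the line graph of a cubic graph has an even circuit decomposition, then the cubic graph
has no cut of size one. -/

namespace Pool.Agent.Y296.ECD

open Finset Pool.Agent.Helper879.ECD

section

variable {V E : Type} [Fintype V] [Fintype E] [DecidableEq V] [DecidableEq E]
  {G : MGraph V E} {a b : E → V}

/-- A set with three elements has three two-element subsets. -/
lemma card_pairs (T : Finset E) (hT : T.card = 3) :
    ({s : Sym2 E | ¬ s.IsDiag ∧ ∀ e ∈ s, e ∈ T}).ncard = 3 := by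
  obtain ⟨x, y, z, hxy, hxz, hyz, rfl⟩ := Finset.card_eq_three.1 hT
  have h1 : {s : Sym2 E | ¬ s.IsDiag ∧ ∀ e ∈ s, e ∈ ({x, y, z} : Finset E)} =
      (({s(x, y), s(x, z), s(y, z)} : Finset (Sym2 E)) : Set (Sym2 E)) := by
    ext s
    induction s with
    | _ u v =>
      simp only [Set.mem_setOf_eq, Sym2.mk_isDiag_iff, Sym2.mem_iff, Finset.mem_insert,
        Finset.mem_singleton, Finset.coe_insert, Finset.coe_singleton, Set.mem_insert_iff,
        Set.mem_singleton_iff, Sym2.eq_iff]
      constructor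
      · rintro ⟨h1, h2⟩
        have h3 := h2 u (Or.inl rfl)
        have h4 := h2 v (Or.inr rfl)
        rcases h3 with rfl | rfl | rfl <;> rcases h4 with rfl | rfl | rfl <;> simp_all
      · rintro ((⟨rfl, rfl⟩ | ⟨rfl, rfl⟩) | (⟨rfl, rfl⟩ | ⟨rfl, rfl⟩) |
          (⟨rfl, rfl⟩ | ⟨rfl, rfl⟩)) <;>
        · refine ⟨by tauto, ?_⟩
          rintro e (rfl | rfl) <;> tauto
  rw [h1, Set.ncard_coe_finset, Finset.card_eq_three]
  refine ⟨_, _, _, ?_, ?_, ?_, rfl⟩
  · rw [Ne, Sym2.eq_iff]; tauto
  · rw [Ne, Sym2.eq_iff]; tauto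
  · rw [Ne, Sym2.eq_iff]; tauto

/-- The number of edges of the line graph coming from a vertex of a cubic graph. -/
lemma ncard_at (hcub : G.IsCubic) (v : V) : {p : G.LineEdge | p.1.1 = v}.ncard = 3 := by
  classical
  have hT : (univ.filter (fun e => v ∈ G.ends e)).card = 3 := by
    rw [← hcub v, ← Set.ncard_coe_finset]
    congr 1
    ext e
    simp
  rw [← card_pairs _ hT]
  apply Set.ncard_congr (fun p _ => p.1.2)
  · rintro p hp
    refine ⟨p.2.1, ?_⟩
    intro e he
    rw [Finset.mem_filter]
    have h1 := p.2.2 e he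
    have h2 : p.1.1 = v := hp
    rw [h2] at h1
    exact ⟨Finset.mem_univ _, h1⟩
  · intro p q hp hq h
    have h2 : p.1.1 = v := hp
    have h3 : q.1.1 = v := hq
    exact Subtype.ext (Prod.ext (h2.trans h3.symm) h)
  · rintro s ⟨h1, h2⟩
    refine ⟨⟨(v, s), h1, ?_⟩, rfl, rfl⟩
    intro e he
    exact (Finset.mem_filter.1 (h2 e he)).2

/-- No cut of size one if the line graph has an even circuit decomposition. -/
lemma no_cut_of_ecd (hends : ∀ e, G.ends e = s(a e, b e)) (hcub : G.IsCubic)
    (hE : G.lineGraph.HasEvenCircuitDecomposition) (X : Finset V) : cn a b univ X ≠ 1 := by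
  classical
  intro hX
  have hfin : Finite G.LineEdge := by unfold MGraph.LineEdge; infer_instance
  have := Fintype.ofFinite G.LineEdge
  obtain ⟨e0, u, v, huv, hu, hv, hside⟩ := exists_cross hends hX
  obtain ⟨P, ⟨hP0, hP1⟩, hPc⟩ := hE
  let L : Finset G.LineEdge := univ.filter (fun p => p.1.1 ∈ X)
  have hLdef : ∀ p, p ∈ L ↔ p.1.1 ∈ X := by intro p; simp [L]
  have hLodd : ¬ Even L.card := by
    have h1 : L.card = ∑ w ∈ X, 3 := by
      rw [Finset.card_eq_sum_card_fiberwise (f := fun p : G.LineEdge => p.1.1) (t := X)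
        (fun p hp => (hLdef p).1 hp)]
      apply Finset.sum_congr rfl
      intro w hw
      rw [← ncard_at hcub w, ← Set.ncard_coe_finset]
      congr 1
      ext p
      simp only [Finset.coe_filter, Set.mem_setOf_eq, hLdef]
      constructor
      · exact fun h => h.2
      · exact fun h => ⟨h ▸ hw, h⟩
    have h2 := sum_cn a b univ X
    rw [Finset.sum_congr rfl (fun w _ => cn_single_of_cubic hends hcub w), ← h1, hX] at h2
    rintro ⟨k, hk⟩
    omega
  have hblock : ∀ D ∈ P, ∀ p ∈ D, p.1.1 ∈ X → ∀ q ∈ D, q.1.1 ∈ X := by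
    intro D hD p hp hpX q hq
    by_contra hqX
    obtain ⟨⟨_, hreg, hcon⟩, _⟩ := hPc D hD
    obtain ⟨c, d, hc, hd, hcX, hdX, f, hcf, hdf⟩ : ∃ c d : G.LineEdge, c ∈ D ∧ d ∈ D ∧
        c.1.1 ∈ X ∧ d.1.1 ∉ X ∧ ∃ f, f ∈ c.1.2 ∧ f ∈ d.1.2 := by
      by_contra hno
      push Not at hno
      have key : ∀ t, Relation.ReflTransGen (fun a b => a ∈ D ∧ b ∈ D ∧
          ∃ x, x ∈ G.lineGraph.ends a ∧ x ∈ G.lineGraph.ends b) p t → t.1.1 ∈ X := by
        intro t ht
        induction ht with
        | refl => exact hpX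
        | @tail c d _ hcd ih =>
          by_contra hd
          obtain ⟨h1, h2, f, h3, h4⟩ := hcd
          exact hno c d h1 h2 ih hd f h3 h4
      exact hqX (key q (hcon p hp q hq))
    have hf0 : f = e0 := by
      by_contra hne
      have h1 : c.1.1 ∈ G.ends f := c.2.2 f hcf
      have h2 : d.1.1 ∈ G.ends f := d.2.2 f hdf
      have h3 := hside f hne
      rw [mem_ends_iff hends] at h1 h2
      rcases h1 with h1 | h1 <;> rcases h2 with h2 | h2 <;> rw [h1] at hcX <;>
        rw [h2] at hdX <;> tauto
    subst hf0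
    let S : Finset G.LineEdge := univ.filter (fun r => r ∈ D ∧ r.1.1 ∈ X)
    have hSdef : ∀ r, r ∈ S ↔ r ∈ D ∧ r.1.1 ∈ X := by intro r; simp [S]
    have hsum : ∑ g : E, (S.filter (fun r => g ∈ r.1.2)).card = 2 * S.card := by
      simp only [Finset.card_filter]
      rw [Finset.sum_comm]
      have h1 : ∀ r ∈ S, (∑ g : E, if g ∈ r.1.2 then 1 else 0) = 2 := by
        intro r _
        rw [← Finset.card_filter]
        have h2 : ∀ s : Sym2 E, ¬ s.IsDiag → (univ.filter (fun g => g ∈ s)).card = 2 := by
          intro s hs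
          induction s with
          | _ x y =>
            rw [Sym2.mk_isDiag_iff] at hs
            rw [Finset.card_eq_two]
            refine ⟨x, y, hs, ?_⟩
            ext g
            simp [Sym2.mem_iff]
        exact h2 _ r.2.1
      rw [Finset.sum_congr rfl h1, Finset.sum_const, smul_eq_mul, mul_comm]
    have heven : ∀ g, g ≠ f → Even (S.filter (fun r => g ∈ r.1.2)).card := by
      intro g hg
      by_cases h0 : S.filter (fun r => g ∈ r.1.2) = ∅
      · rw [h0]; simp
      · obtain ⟨r, hr⟩ := Finset.nonempty_iff_ne_empty.2 h0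
        obtain ⟨hrS, hrg⟩ := Finset.mem_filter.1 hr
        obtain ⟨hrD, hrX⟩ := (hSdef r).1 hrS
        have h2 : {r | r ∈ D ∧ g ∈ G.lineGraph.ends r}.ncard = 2 := hreg r hrD g hrg
        have h3 : (S.filter (fun r => g ∈ r.1.2)).card = 2 := by
          rw [← h2, ← Set.ncard_coe_finset]
          congr 1
          ext t
          simp only [Finset.coe_filter, Set.mem_setOf_eq, hSdef]
          constructor
          · rintro ⟨⟨h4, _⟩, h5⟩
            exact ⟨h4, h5⟩
          · rintro ⟨h4, h5⟩
            refine ⟨⟨h4, ?_⟩, h5⟩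
            have h6 : r.1.1 ∈ G.ends g := r.2.2 g hrg
            have h7 : t.1.1 ∈ G.ends g := t.2.2 g h5
            have h8 := hside g hg
            rw [mem_ends_iff hends] at h6 h7
            rcases h6 with h6 | h6 <;> rcases h7 with h7 | h7 <;> rw [h6] at hrX <;>
              rw [h7] <;> tauto
        rw [h3]
        exact even_two
    have hodd : (S.filter (fun r => f ∈ r.1.2)).card = 1 := by
      have h2 : {r | r ∈ D ∧ f ∈ G.lineGraph.ends r}.ncard = 2 := hreg c hc f hcf
      obtain ⟨x, y, hxy, hset⟩ := Set.ncard_eq_two.1 h2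
      have hmem : ∀ t, (t ∈ D ∧ f ∈ t.1.2) → t = x ∨ t = y := by
        intro t ht
        have h3 : t ∈ {r | r ∈ D ∧ f ∈ G.lineGraph.ends r} := ht
        rw [hset] at h3
        simpa using h3
      have hcd : c ≠ d := by
        rintro rfl
        exact hdX hcX
      rw [Finset.card_eq_one]
      refine ⟨c, ?_⟩
      ext t
      rw [Finset.mem_filter, hSdef, Finset.mem_singleton]
      constructor
      · rintro ⟨⟨h4, h5⟩, h6⟩
        have htd : t ≠ d := by
          rintro rfl
          exact hdX h5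
        have h7 := hmem t ⟨h4, h6⟩
        have h8 := hmem c ⟨hc, hcf⟩
        have h9 := hmem d ⟨hd, hdf⟩
        rcases h7 with h7 | h7 <;> rcases h8 with h8 | h8 <;> rcases h9 with h9 | h9 <;>
          first
          | exact h7.trans h8.symm
          | exact absurd (h7.trans h9.symm) htd
          | exact absurd (h8.trans h9.symm) hcd
      · rintro rfl
        exact ⟨⟨hc, hcX⟩, hcf⟩
    rw [← Finset.add_sum_erase univ _ (Finset.mem_univ f), hodd] at hsum
    have h5 : Even (∑ g ∈ univ.erase f, (S.filter (fun r => g ∈ r.1.2)).card) := by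
      apply Finset.even_sum
      intro g hg
      exact heven g (Finset.ne_of_mem_erase hg)
    obtain ⟨k, hk⟩ := h5
    omega
  apply hLodd
  choose blk hblk using hP1
  rw [Finset.card_eq_sum_card_image blk L]
  apply Finset.even_sum
  intro B hB
  obtain ⟨p, hpL, rfl⟩ := Finset.mem_image.1 hB
  have h1 : (L.filter (fun q => blk q = blk p)).card = (blk p).ncard := by
    rw [← Set.ncard_coe_finset]
    congr 1
    ext q
    simp only [Finset.coe_filter, Set.mem_setOf_eq, hLdef]
    constructor
    · rintro ⟨_, h2⟩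
      rw [← h2]
      exact (hblk q).1.2
    · intro hq
      have h3 : blk q = blk p := ((hblk q).2 (blk p) ⟨(hblk p).1.1, hq⟩).symm
      exact ⟨hblock (blk p) (hblk p).1.1 p (hblk p).1.2 ((hLdef p).1 hpL) q hq, h3⟩
  rw [h1]
  exact (hPc _ (hblk p).1.1).2

end

/-- The line graph of a cubic graph has an even circuit decomposition if and only if the cubic
graph has no bridge; for a connected cubic graph, if and only if it is 2-connected. -/
theorem main {V E : Type} [Finite V] [Finite E] (G : MGraph V E) (hcub : G.IsCubic) :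
    (G.lineGraph.HasEvenCircuitDecomposition ↔ ∀ e, ¬ IsBridge G e) ∧
    ((∀ x y, Relation.ReflTransGen (fun a b => ∃ e, G.ends e = s(a, b)) x y) →
      (G.lineGraph.HasEvenCircuitDecomposition ↔ G.TwoConnected)) := by
  classical
  have := Fintype.ofFinite V
  have := Fintype.ofFinite E
  have hab : ∀ e, ∃ p : V × V, G.ends e = s(p.1, p.2) := by
    intro e
    induction h : G.ends e with
    | _ x y => exact ⟨(x, y), rfl⟩
  choose p hp using hab
  have hiff : G.lineGraph.HasEvenCircuitDecomposition ↔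
      ∀ X : Finset V, cn (fun e => (p e).1) (fun e => (p e).2) univ X ≠ 1 :=
    ⟨fun h => no_cut_of_ecd hp hcub h,
      fun h => ecd_of_bridgeless G _ _ hp (fun w => cn_single_of_cubic hp hcub w) h⟩
  refine ⟨hiff.trans (no_bridge_iff hp).symm, fun hconn => ⟨fun h => ?_, fun h => ?_⟩⟩
  · exact twoConnected_of_cuts hp hcub hconn (hiff.1 h)
  · exact Pool.Agent.Helper879.ECD.main G hcub h

end Pool.Agent.Y296.ECD
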